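import Pool.Agent.helper36.MP.SpecN
import Pool.Agent.helper98.ILF.Defs

/-!
# Project nl: (MP_70a088_an): no invariant line fields for `z ^ n + c` with cycles close to the unit circle

Companion of the universal strip of helper36 (project mp:, MP_af9036_an; definitions and statements
`Pool/Agent/helper36/MP/{Defs,SpecN}.lean`, namespace `MPS`).

PLAN. Let `μ` be an invariant line field of `f z = z ^ n + c` and `a(b) = ∫ μ(z)/(z-b)`
(`CT μ b`). Then `∫_{f⁻¹ K} μ q = ∫_K μ T q` (IP), so `f'(b) a(b) = a(f b) - a(c)` (REL), and for a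
cycle with exact coefficients `g` (`B - T B = S/(z-c)`, `S = Σ g_i`) the regularised integral of `μ B`
gives `|S| |a(c)| ≤ 2π log|ρ|` (INEQ). If `a(c) = 0` then `a(f^k b) = (f^k)'(b) a(b)`, so `a = 0` on the
Julia set (JUL), `a = 0` everywhere (MAXP) and `μ = 0` (CT0). Hence `a(c) ≠ 0`, and the universal strip
`log|ρ| + |S| ≥ ε` (THA) gives `log|ρ| ≥ ε' |a(c)|`.

RULES. File `Pool/Agent/<seat>/NL/XX.lean`, `import Pool.Agent.helper74.NL.Spec`, `namespace NLF`,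
`theorem XX (h : YY_stmt) ... : XX_stmt`. Any other statement of this file, and every statement of
`MPS` (SpecN), may be a hypothesis (no circles). Auxiliary lemmas prefixed `XX_`.
-/

set_option autoImplicit false

open Complex Metric Set Filter Topology MeasureTheory MPS Pool.Agent.helper98.ILF

noncomputable section

namespace NLF

/-- an invariant line field (or a bounded invariant Beltrami form) of `z ^ n + c`. -/
structure LF (n : ℕ) (c : ℂ) (μ : ℂ → ℂ) : Prop where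
  meas : Measurable μ
  bd : ∀ z, ‖μ z‖ ≤ 1
  supp : ∀ z, μ z ≠ 0 → ‖z‖ < 4
  julia : ∀ z, μ z ≠ 0 → z ∈ juliaSet (fun z : ℂ => z ^ n + c)
  inv : ∀ᵐ z : ℂ, μ (z ^ n + c) * (starRingEnd ℂ) (fd n z) / fd n z = μ z

/-- the Cauchy transform `a(b) = ∫ μ(z) / (z - b)`. -/
def CT (μ : ℂ → ℂ) (b : ℂ) : ℂ := ∫ z : ℂ, μ z / (z - b)

/-- the push-forward of a quadratic differential. -/
def TQ (n : ℕ) (c : ℂ) (q : ℂ → ℂ) (z : ℂ) : ℂ :=
  ∑ j ∈ Finset.range n, q (om n ^ j * rt n (z - c)) / fd n (om n ^ j * rt n (z - c)) ^ 2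

/-- the plane without discs about the cycle. -/
def KK {k : ℕ} [NeZero k] (b : ZMod k → ℂ) (r : ZMod k → ℝ) : Set ℂ := (⋃ i, ball (b i) (r i))ᶜ

/-- the exact coefficients. -/
def Exact {k : ℕ} [NeZero k] (n : ℕ) (b g : ZMod k → ℂ) : Prop :=
  ∀ i, g (i + 1) = g i / fd n (b i) - fdd n (b i) / fd n (b i) ^ 2

/-! ## A: change of variables and invariance -/

/-- CB: change of variables (Bochner integral version of `MCV`).
PROOF. For `F` real valued and nonnegative: `MCV` with `ENNReal.ofReal ∘ F` gives equality of the `lintegral`s (note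
`ofReal (F y_j / ‖fd y_j‖^2) = ofReal (F y_j) / ofReal (‖fd y_j‖^2)` when `fd y_j ≠ 0`, i.e. for `z ≠ c`; `rt`, `fd` measurable),
hence integrability and `ofReal_integral_eq_lintegral_ofReal`. General `F` = `(u₁ - u₂) + i (u₃ - u₄)` with the positive and
negative parts of the real and imaginary parts (all integrable); both sides are additive in `F`. -/
def CB_stmt : Prop := ∀ (n : ℕ) (c : ℂ), 1 ≤ n → ∀ (F : ℂ → ℂ) (K : Set ℂ), Measurable F →
  MeasurableSet K → IntegrableOn F {y : ℂ | y ^ n + c ∈ K} →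
  IntegrableOn (fun z => ∑ j ∈ Finset.range n, F (om n ^ j * rt n (z - c)) /
    ((‖fd n (om n ^ j * rt n (z - c))‖ ^ 2 : ℝ) : ℂ)) K ∧
  ∫ z in K, ∑ j ∈ Finset.range n, F (om n ^ j * rt n (z - c)) /
    ((‖fd n (om n ^ j * rt n (z - c))‖ ^ 2 : ℝ) : ℂ) = ∫ y in {y : ℂ | y ^ n + c ∈ K}, F y

/-- NB: null sets: for almost every `z` none of the preimages lies in a given null set.
PROOF. Enlarge `N` to a measurable null set (`toMeasurable`). `MCV` with `F` = indicator of `N` (value `1`), `K = univ`: the integral of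
`∑_j 1_N(y_j)/ofReal(‖fd y_j‖²)` is `volume N = 0`, so the sum vanishes a.e. (`lintegral_eq_zero_iff`, measurable), and every
summand with `y_j ∈ N` would be `1/ofReal(..) ≠ 0`. -/
def NB_stmt : Prop := ∀ (n : ℕ) (c : ℂ), 1 ≤ n → ∀ N : Set ℂ, volume N = 0 →
  ∀ᵐ z : ℂ, ∀ j < n, om n ^ j * rt n (z - c) ∉ N

/-- IP: invariance: `∫_K μ Tq = ∫_{f⁻¹K} μ q`.
PROOF. CB for `F = μ q`. For a.e. `z` (NB for the null set where `inv` fails, and `z ≠ c`): with `y = y_j`, `y ^ n + c = z`, `fd n y ≠ 0`,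
`μ y = μ z conj(fd n y)/fd n y`, so `μ y q y / |fd n y|² = μ z q y/(fd n y)²`. -/
def IP_stmt : Prop := ∀ (n : ℕ) (c : ℂ) (μ : ℂ → ℂ), 2 ≤ n → LF n c μ → ∀ (q : ℂ → ℂ) (K : Set ℂ),
  Measurable q → MeasurableSet K → IntegrableOn (fun y => μ y * q y) {y : ℂ | y ^ n + c ∈ K} →
  IntegrableOn (fun z => μ z * TQ n c q z) K ∧
  ∫ z in K, μ z * TQ n c q z = ∫ y in {y : ℂ | y ^ n + c ∈ K}, μ y * q y

/-- T1: push-forward of a simple pole. PROOF. `Pool.Agent.helper27.MP.TB`: `TB_S1` (its proof: partial fractions). -/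
def T1_stmt : Prop := ∀ (n : ℕ) (y a : ℂ), 2 ≤ n → y ≠ 0 → a ≠ 0 → y ^ n ≠ a ^ n →
  ∑ j ∈ Finset.range n, (1 / (om n ^ j * y - a)) / fd n (om n ^ j * y) ^ 2 =
    (1 / fd n a) * (1 / (y ^ n - a ^ n) - 1 / y ^ n)

/-! ## B: the Cauchy transform -/

/-- CTB: integrability, bound, continuity and decay of the Cauchy transform.
PROOF. Integrability: `‖μ z/(z-b)‖ ≤ 1_{ball 0 4}(z)/‖z-b‖ ≤ 1_{ball b (‖b‖+4)}/‖z-b‖` (`MI`, second part, gives integrability and the value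
`2π(‖b‖+4)`); so `‖CT μ b‖ ≤ 2π·12 ≤ 80` if `‖b‖ ≤ 8`, and `≤ (1/4)·16π` if `‖b‖ ≥ 8`. Continuity: let
`κ_ε w = conj w / max(‖w‖,ε)²` (continuous, bounded by `1/ε`, equal to `1/w` for `‖w‖ ≥ ε`, norm `≤ 1/‖w‖`);
`b ↦ ∫ μ(z) κ_ε(z-b)` is continuous (`continuous_of_dominated`, bound `1/ε` on `ball 0 4`), and it differs from `CT μ b` by at most
`∫_{ball b ε} 2/‖z-b‖ = 4πε`; uniform limit (`continuous_of_uniform_approx_of_continuous`). Decay: for `‖b‖ ≥ 8`,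
`‖CT μ b‖ ≤ 16π/(‖b‖-4)`. -/
def CTB_stmt : Prop := ∀ μ : ℂ → ℂ, Measurable μ → (∀ z, ‖μ z‖ ≤ 1) → (∀ z, μ z ≠ 0 → ‖z‖ < 4) →
  (∀ b, Integrable (fun z => μ z / (z - b))) ∧ (∀ b, ‖CT μ b‖ ≤ 80) ∧ Continuous (CT μ) ∧
    Tendsto (CT μ) (Bornology.cobounded ℂ) (𝓝 0)

/-- CTH: the Cauchy transform is holomorphic off the support.
PROOF. `b₀ ∈ U`, `ball b₀ (2r) ⊆ U`: for `b ∈ ball b₀ r` the integrand is `0` for `z ∈ ball b₀ (2r)`, and its `b`-derivative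
`μ z/(z-b)²` is bounded by `1_{ball 0 4}/r²`: `hasDerivAt_integral_of_dominated_loc_of_deriv_le`. -/
def CTH_stmt : Prop := ∀ (μ : ℂ → ℂ) (U : Set ℂ), Measurable μ → (∀ z, ‖μ z‖ ≤ 1) →
  (∀ z, μ z ≠ 0 → ‖z‖ < 4) → IsOpen U → (∀ z ∈ U, μ z = 0) → DifferentiableOn ℂ (CT μ) U

/-- CT0: the Cauchy transform determines `μ`.
PROOF. For `b₀`, `r > 0`: integrate `CT μ b = 0` over the circle `|b-b₀| = r` and use Fubini
(`∫_θ ∫_z |μ z|/|z-b| ≤ 80·...` finite; measurability clear): `0 = ∫ μ(z) (∮ db/(z-b)) = -2πi ∫_{ball b₀ r} μ`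
(`circleIntegral.integral_sub_inv_of_mem_ball`, and `0` for `|z-b₀| > r`
by Cauchy's theorem, e.g. `Complex.circleIntegral_eq_zero_of_differentiable_on_off_countable`; the circle itself is a null set).
So all averages of `μ` over discs vanish; Lebesgue differentiation
(`IsUnifLocDoublingMeasure.ae_tendsto_average` or `Besicovitch.ae_tendsto...`) gives `μ = 0` a.e.
(Any other proof is welcome, e.g. Cauchy-Pompeiu and `ae_eq_zero_of_integral_contDiff_smul_eq_zero`.) -/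
def CT0_stmt : Prop := ∀ μ : ℂ → ℂ, Measurable μ → (∀ z, ‖μ z‖ ≤ 1) → (∀ z, μ z ≠ 0 → ‖z‖ < 4) →
  (∀ b, CT μ b = 0) → ∀ᵐ z : ℂ, μ z = 0

/-- REL: the functional equation `f'(b) a(b) = a(f b) - a(c)`.
PROOF. `b = 0`: both sides are `0` (`fd n 0 = 0`, `f 0 = c`). `b ≠ 0`: IP with `K = univ`, `q z = 1/(z-b)` (integrable by CTB):
`CT μ b = ∫ μ z TQ n c q z`, and by T1 (`y = rt n (z-c)`, `y^n = z - c`, for `z ≠ c`, `z ≠ b^n+c`)
`TQ n c q z = (1/fd n b)(1/(z-(b^n+c)) - 1/(z-c))`. -/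
def REL_stmt : Prop := ∀ (n : ℕ) (c : ℂ) (μ : ℂ → ℂ), 2 ≤ n → LF n c μ → ∀ b : ℂ,
  fd n b * CT μ b = CT μ (b ^ n + c) - CT μ c

/-- JUL: if `a(c) = 0` then `a` vanishes on the Julia set.
PROOF. REL and induction: `deriv f^[k] b * a b = a (f^[k] b)` (chain rule). Let `b₀ ∈ J`, `a b₀ ≠ 0`. By continuity `‖a‖ ≥ m > 0` on a ball
`ball b₀ δ`; there `‖deriv f^[k]‖ ≤ 80/m` for all `k`, so (`Convex.norm_image_sub_le_of_norm_deriv_le`) the iterates are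
`80/m`-Lipschitz on the ball, hence equicontinuous (for `chordal ≤ ‖·‖`: `Pool.Agent.helper98.ILF.chordal_le` in
`Pool/Agent/helper98/ILF/Julia.lean`) at every point of the ball, and `b₀ ∈ fatouSet`: contradiction. -/
def JUL_stmt : Prop := ∀ (n : ℕ) (c : ℂ) (μ : ℂ → ℂ), 2 ≤ n → LF n c μ → CT μ c = 0 →
  ∀ b ∈ juliaSet (fun z : ℂ => z ^ n + c), CT μ b = 0

/-- MAXP: maximum principle.
PROOF. If `a` is not identically `0`, `‖a‖` has a maximum `M > 0` on `ℂ` (continuity and decay: a maximum on a closed ball outside of which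
`‖a‖ < M`). The set `{‖a‖ = M}` is closed, bounded, nonempty and, off `J` (where `a ≠ 0`), open by
`Complex.eventually_eq_of_isLocalMax_norm`; so it is `ℂ` (connected), contradiction. -/
def MAXP_stmt : Prop := ∀ (a : ℂ → ℂ) (J : Set ℂ), Continuous a → IsClosed J →
  Tendsto a (Bornology.cobounded ℂ) (𝓝 0) → DifferentiableOn ℂ a Jᶜ → (∀ b ∈ J, a b = 0) → ∀ b, a b = 0

/-- NZ: `a(c) ≠ 0` for a nonzero line field. PROOF. JUL, CTH (`U` = complement of the Julia set), MAXP, CT0. -/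
def NZ_stmt : Prop := ∀ (n : ℕ) (c : ℂ) (μ : ℂ → ℂ), 2 ≤ n → LF n c μ →
  0 < volume {z | μ z ≠ 0} → CT μ c ≠ 0

/-! ## C: the regularised integral of `μ B` -/

/-- RAD: radii.
PROOF. `r i = ∏_{j < i.val} ‖fd n (b j)‖`. If `i.val + 1 < k` then `(i+1).val = i.val + 1` and equality holds; if `i.val = k - 1` then
`i + 1 = 0`, `r 0 = 1 ≤ ‖rho n b‖ = ‖fd n (b i)‖ r i`. The sum of the logarithms telescopes (`Equiv.sum_comp (Equiv.addRight 1)`). -/
def RAD_stmt : Prop := ∀ (n k : ℕ) [NeZero k] (c : ℂ) (b : ZMod k → ℂ), 2 ≤ n → IsCyc n c b →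
  1 ≤ ‖rho n b‖ → ∃ r : ZMod k → ℝ, (∀ i, 0 < r i) ∧ (∀ i, r (i + 1) ≤ ‖fd n (b i)‖ * r i) ∧
    ∑ i, Real.log (‖fd n (b i)‖ * r i / r (i + 1)) = Real.log ‖rho n b‖

/-- SD1: first half of the symmetric difference: points inside the discs whose image is outside.
PROOF. Let `η > 0` be small. For small `s` and `z ∈ ball (b i) (s r_i)` with `f z ∉ ball (b (i+1)) (s r_{i+1})`:
`s r_{i+1} ≤ ‖f z - b (i+1)‖ ≤ (1+η)‖fd n (b i)‖ ‖z - b i‖` (`MPS.MD_der`), so `z` lies in the annulus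
`ball (b i) (s r_i) \ ball (b i) (s r_i/((1+η) τ_i))`, `τ_i = ‖fd n (b i)‖ r_i/r_{i+1} ≥ 1`; the integral of `‖B‖` over it is at most
`2π log((1+η)τ_i) + 2πC s r_i` (`MPS.MD_annB`, `MPS.MD_loc`). All lemmas `MD_..` are proved in
`Pool/Agent/helper74/MP/MD1.lean` and `MD.lean` (import them). Sum over `i`, `η` small, `s` small. -/
def SD1_stmt : Prop := ∀ (n k : ℕ) [NeZero k] (c : ℂ) (b g : ZMod k → ℂ) (r : ZMod k → ℝ), 2 ≤ n →
  IsCyc n c b → (∀ i, 0 < r i) → (∀ i, r (i + 1) ≤ ‖fd n (b i)‖ * r i) → ∀ δ > (0 : ℝ),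
  ∀ᶠ s in 𝓝[>] (0 : ℝ),
    ∫⁻ z in {z : ℂ | z ^ n + c ∈ KK b (fun i => s * r i)} \ KK b (fun i => s * r i),
      ENNReal.ofReal ‖BB b g z‖ ≤
    ENNReal.ofReal (2 * Real.pi * (∑ i, Real.log (‖fd n (b i)‖ * r i / r (i + 1))) + δ)

/-- SD2: second half: points outside of the discs whose image is inside.
PROOF. Let `z ∈ KK`, `f z ∈ ball (b m) (s r_m)`, `‖z‖ < 4`. Fix a small `t` for which `MD_loc`, `MD_disj`, `MD_der` hold, and a lower estimate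
`(1-η)‖fd n (b i)‖‖z - b i‖ ≤ ‖f z - b (i+1)‖` for `‖z-b i‖ < t`. If `‖z - b i‖ < t` for some `i` (`t` so small that `f z` is closer to `b (i+1)` than to
all other `b l`, `s` small), then `m = i+1` and `‖z-b i‖ < s r_{i+1}/((1-η)‖fd n (b i)‖) ≤ s r_i/(1-η)`: an annulus with integral at most
`2π log(1/(1-η)) + 2πC s r_i/(1-η)`. Otherwise `‖B z‖ ≤ C_t` and the area of `{z : ‖z‖ < 4, f z ∈ ⋃ ball (b m) (s r_m)}` tends to `0` as
`s → 0` (the intersection over `s > 0` is a finite set; `tendsto_measure_biInter_gt` or sequences). -/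
def SD2_stmt : Prop := ∀ (n k : ℕ) [NeZero k] (c : ℂ) (b g : ZMod k → ℂ) (r : ZMod k → ℝ), 2 ≤ n →
  IsCyc n c b → (∀ i, 0 < r i) → (∀ i, r (i + 1) ≤ ‖fd n (b i)‖ * r i) → ∀ δ > (0 : ℝ),
  ∀ᶠ s in 𝓝[>] (0 : ℝ),
    ∫⁻ z in (KK b (fun i => s * r i) \ {z : ℂ | z ^ n + c ∈ KK b (fun i => s * r i)}) ∩ ball 0 4,
      ENNReal.ofReal ‖BB b g z‖ ≤ ENNReal.ofReal δ

/-- PAIR: pairing with `μ`.
PROOF. Off the discs (`KK`, and `f⁻¹ KK`, where also `‖z - b i‖` is bounded below because `f` is continuous at `b i`, `f (b i) = b (i+1)`) `B` is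
bounded, so `μ B` is integrable there (`μ` has bounded support). IP with `q = BB b g`, `K = KK b r`: `∫_K μ TQ = ∫_{f⁻¹K} μ B`, and
`TQ n c (BB b g) z = BB b g z - er n c b g z` for `z ≠ c`, `z ≠ b i` (`TB`). So `∫_K μ er = ∫_K μ B - ∫_{f⁻¹K} μ B`, the difference of the integrals over
`K \ f⁻¹K` and `f⁻¹K \ K`; `‖μ‖ ≤ 1`, `μ = 0` off `ball 0 4`. (`er` is integrable on bounded sets: `MI`.) -/
def PAIR_stmt : Prop := ∀ (n k : ℕ) [NeZero k] (c : ℂ) (b g : ZMod k → ℂ) (μ : ℂ → ℂ) (r : ZMod k → ℝ),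
  2 ≤ n → IsCyc n c b → LF n c μ → (∀ i, 0 < r i) →
  ENNReal.ofReal ‖∫ z in KK b r, μ z * er n c b g z‖ ≤
    (∫⁻ z in {z : ℂ | z ^ n + c ∈ KK b r} \ KK b r, ENNReal.ofReal ‖BB b g z‖) +
    ∫⁻ z in (KK b r \ {z : ℂ | z ^ n + c ∈ KK b r}) ∩ ball 0 4, ENNReal.ofReal ‖BB b g z‖

/-- LIMK: the discs shrink.
PROOF. `er z = S/(z-c)` for exact `g` (the first sum vanishes, the second is `Σ g (i+1) = S`), so `μ er` is integrable with integral `S a(c)`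
(CTB); the indicator functions of `KK b (s r)` tend to `1` a.e.; dominated convergence
(`tendsto_setIntegral..` or `tendsto_integral_filter_of_dominated_convergence`). -/
def LIMK_stmt : Prop := ∀ (n k : ℕ) [NeZero k] (c : ℂ) (b g : ZMod k → ℂ) (μ : ℂ → ℂ) (r : ZMod k → ℝ),
  2 ≤ n → IsCyc n c b → LF n c μ → (∀ i, 0 < r i) → Exact n b g →
  Tendsto (fun s : ℝ => ∫ z in KK b (fun i => s * r i), μ z * er n c b g z) (𝓝[>] 0)
    (𝓝 ((∑ i, g i) * CT μ c))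

/-- INEQ: `|S| |a(c)| ≤ 2π log|ρ|`. PROOF. RAD, SD1, SD2, PAIR, LIMK (every `δ > 0`). -/
def INEQ_stmt : Prop := ∀ (n k : ℕ) [NeZero k] (c : ℂ) (b g : ZMod k → ℂ) (μ : ℂ → ℂ),
  2 ≤ n → IsCyc n c b → LF n c μ → 1 ≤ ‖rho n b‖ → Exact n b g →
  ‖∑ i, g i‖ * ‖CT μ c‖ ≤ 2 * Real.pi * Real.log ‖rho n b‖

/-! ## D: indifferent cycles -/

/-- MD0: the deficit vanishes for an indifferent cycle with `er = 0`.
PROOF. `MPS.MD_core`, `MD_aux`, `MD` (`Pool/Agent/helper74/MP/MD.lean`) with `1 ≤ ‖rho n b‖` in place of `1 < ‖rho n b‖` (only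
`0 ≤ log ‖rho n b‖` is needed): copy the proof. Then `∫⁻ ofReal (Df) ≤ ofReal (0 + 0)`. (helper74 does this one) -/
def MD0_stmt : Prop := ∀ (n k : ℕ) [NeZero k] (c : ℂ) (b g : ZMod k → ℂ) (R : ℝ), 2 ≤ n →
  IsCyc n c b → ‖c‖ ≤ 3 → 4 ≤ R → ‖rho n b‖ = 1 → (∀ z, er n c b g z = 0) →
  ∀ᵐ z : ℂ, z ∈ ball (0 : ℂ) R → Df n c b g z = 0

/-- RAT: positivity implies invariance of `B` under rotation.
PROOF. For a.e. `z ∈ ball 0 R`: `‖Σ_j β_j‖ = Σ_j ‖β_j‖` with `β_j = BB(y_j)/fd(y_j)²` (`TB` and `er = 0`), so `β_0 conj β_1` is real `≥ 0`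
(equality in the triangle inequality). Pull back to the `y`-plane: a.e. `y` with `y ^ n + c ∈ ball 0 R` equals some `y_j(z)`
(NB-type argument with `MCV` for the bad set, or: the bad set `N` of `z` is null and `f⁻¹ N` is null because `f` is a local
diffeomorphism off `0`: `MCV` with `F = 1`, `K = N`): the function `h y = (om n)^2 * BB (om n * y) / BB y` is real `≥ 0` for a.e.
`y` of a nonempty open set where it is holomorphic, hence (continuity) real `≥ 0` and locally constant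
(open mapping, e.g. `AnalyticOnNhd.is_constant_or_isOpen` or `h' = 0` from the Cauchy-Riemann equations). So
`(om n)^2 BB (om n y) = κ BB y` on an open set, hence for all `y` off the poles (multiply by the denominators: polynomials;
`Polynomial.funext`-type argument or the identity theorem), `κ ≥ 0`. -/
def RAT_stmt : Prop := ∀ (n k : ℕ) [NeZero k] (c : ℂ) (b g : ZMod k → ℂ), 2 ≤ n →
  IsCyc n c b → ‖c‖ ≤ 3 → (∀ z, er n c b g z = 0) →
  (∀ᵐ z : ℂ, z ∈ ball (0 : ℂ) 4 → Df n c b g z = 0) →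
  ∃ κ : ℂ, ∀ y : ℂ, (∀ i, y ≠ b i) → (∀ i, om n * y ≠ b i) →
    om n ^ 2 * BB b g (om n * y) = κ * BB b g y

/-- NOP: no such symmetry.
PROOF. `om n * b 0 ≠ b i` for all `i`: otherwise (`n`-th powers) `b 1 = b (i+1)`, `i = 0`, `om n = 1`, but `2 ≤ n` (primitive root) and
`b 0 ≠ 0`. Similarly `b 0 ≠ om n * b i`. As `y → b 0`: the left side stays bounded, `BB y → ∞` (double pole), so `κ = 0`.
As `om n * y → b 0` the left side tends to infinity, contradiction to `κ = 0`. -/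
def NOP_stmt : Prop := ∀ (n k : ℕ) [NeZero k] (c : ℂ) (b g : ZMod k → ℂ) (κ : ℂ), 2 ≤ n →
  IsCyc n c b → ¬ (∀ y : ℂ, (∀ i, y ≠ b i) → (∀ i, om n * y ≠ b i) →
    om n ^ 2 * BB b g (om n * y) = κ * BB b g y)

/-- IND: there are no indifferent cycles with multiplier `≠ 1`. PROOF. TG gives the exact `g`; INEQ and NZ give `S = 0`, so `er = 0`;
MD0, RAT, NOP. -/
def IND_stmt : Prop := ∀ (n k : ℕ) [NeZero k] (c : ℂ) (b : ZMod k → ℂ) (μ : ℂ → ℂ), 2 ≤ n →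
  ‖c‖ ≤ 3 → IsCyc n c b → LF n c μ → 0 < volume {z | μ z ≠ 0} → ‖rho n b‖ = 1 → rho n b = 1

/-! ## E: conclusion -/

/-- THA: the universal strip (Theorem A of helper36, project mp:), used as a hypothesis. -/
def THA_stmt : Prop := ∀ n : ℕ, 2 ≤ n → ∀ d₀ > (0 : ℝ), ∃ ε > (0 : ℝ), ∀ (k : ℕ) [NeZero k] (c : ℂ)
  (b g : ZMod k → ℂ), 2 ≤ k → ‖c‖ ≤ 3 → IsCyc n c b → 1 < ‖rho n b‖ →
  (∀ j : ℕ, 1 ≤ j → j ≤ 5 → d₀ ≤ ‖(rho n b / ‖rho n b‖) ^ j - 1‖) → Exact n b g →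
  ε ≤ Real.log ‖rho n b‖ + ‖∑ i, g i‖

/-- LFI: invariant line fields are `LF`.
PROOF. `Pool/Agent/helper64/ILF/Region98.lean` (`lineField_mem`, `posArea_subset`): `c ∈ multibrot n`, so `‖c‖ ≤ 2`
(`Pool.Agent.helper16.Multibrot` / `LeadMultibrot`: `norm_pow_le_two` or directly); `juliaSet_subset` (helper98 Poly): `J ⊆ filled`, and
filled points have norm `< 4` (TBD: otherwise the orbit grows by `9` at every step). `deriv (z ^ n + c) = fd n z`. -/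
def LFI_stmt : Prop := ∀ (n : ℕ) (c : ℂ) (μ : ℂ → ℂ), 2 ≤ n →
  IsInvariantLineField (fun z : ℂ => z ^ n + c) μ →
  ‖c‖ ≤ 3 ∧ LF n c μ ∧ 0 < volume {z | μ z ≠ 0} ∧ ¬ HasAttractingCycle (fun z : ℂ => z ^ n + c)

/-- CYC: cycles as functions on `ZMod k`.
PROOF. `b i = f^[i.val] z`, `k` the minimal period; injective by minimality; `deriv f^[k] z = ∏_{j<k} fd n (f^[j] z)` (chain rule, induction);
no `b i` is `0` since the multiplier is not `0`. -/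
def CYC_stmt : Prop := ∀ (n : ℕ) (c z : ℂ), 2 ≤ n →
  0 < Function.minimalPeriod (fun w : ℂ => w ^ n + c) z →
  deriv ((fun w : ℂ => w ^ n + c)^[Function.minimalPeriod (fun w : ℂ => w ^ n + c) z]) z ≠ 0 →
  ∃ (k : ℕ) (_ : NeZero k) (b : ZMod k → ℂ), k = Function.minimalPeriod (fun w : ℂ => w ^ n + c) z ∧
    IsCyc n c b ∧
    rho n b = deriv ((fun w : ℂ => w ^ n + c)^[Function.minimalPeriod (fun w : ℂ => w ^ n + c) z]) z

/-- QUANT: quantitative form, periods at least `2`.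
PROOF. Let `a = ‖CT μ c‖ ≤ 80` (CTB), `Λ = log‖ρ‖`. `‖ρ‖ < 1` is impossible (no attracting cycle), `‖ρ‖ = 1` too (IND: `ρ = 1`, contradiction to
the condition for `j = 1`). THA, TG (existence of the exact `g`, `ρ ≠ 1`) and INEQ: `ε ≤ Λ + ‖S‖`, `‖S‖ a ≤ 2πΛ`, so
`ε a ≤ Λ (a + 2π) ≤ 100 Λ`. Take `κ = ε/100`. -/
def QUANT_stmt : Prop := ∀ n : ℕ, 2 ≤ n → ∀ d₀ > (0 : ℝ), ∃ κ > (0 : ℝ), ∀ (c : ℂ) (μ : ℂ → ℂ),
  IsInvariantLineField (fun z : ℂ => z ^ n + c) μ → CT μ c ≠ 0 ∧ ∀ z ρ : ℂ,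
    2 ≤ Function.minimalPeriod (fun w : ℂ => w ^ n + c) z →
    ρ = deriv ((fun w : ℂ => w ^ n + c)^[Function.minimalPeriod (fun w : ℂ => w ^ n + c) z]) z →
    (∀ j : ℕ, 1 ≤ j → j ≤ 5 → d₀ ≤ ‖(ρ / ‖ρ‖) ^ j - 1‖) →
    κ * ‖CT μ c‖ ≤ Real.log ‖ρ‖

/-- QUAL: all cycles of a given map with a line field.
PROOF. QUANT for the periods `≥ 2` (`ρ ≠ 0` since no attracting cycle; `log‖ρ‖ ≥ κ a` gives `‖ρ‖ ≥ 1 + κ a`). Fixed points: finitely many
(roots of `z^n + c - z`), none attracting; those with `‖ρ‖ = 1` are excluded by IND (`k = 1`) and the condition; the others have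
`‖ρ‖ > 1`: take the minimum. -/
def QUAL_stmt : Prop := ∀ (n : ℕ) (c : ℂ), 2 ≤ n →
  HasInvariantLineField (fun z : ℂ => z ^ n + c) → ∀ d₀ > (0 : ℝ), ∃ ε > (0 : ℝ), ∀ z ρ : ℂ,
    0 < Function.minimalPeriod (fun w : ℂ => w ^ n + c) z →
    ρ = deriv ((fun w : ℂ => w ^ n + c)^[Function.minimalPeriod (fun w : ℂ => w ^ n + c) z]) z →
    (∀ j : ℕ, 1 ≤ j → j ≤ 5 → d₀ ≤ ‖(ρ / ‖ρ‖) ^ j - 1‖) →
    1 + ε ≤ ‖ρ‖

/-- FIN: multipliers accumulating at a point of the unit circle exclude line fields. PROOF. QUAL with `d₀` = half of the minimum of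
`‖ζ^j - 1‖`, `j ≤ 5`; `η` small. -/
def FIN_stmt : Prop := ∀ (n : ℕ) (c ζ : ℂ), 2 ≤ n → ‖ζ‖ = 1 → (∀ j : ℕ, 1 ≤ j → j ≤ 5 → ζ ^ j ≠ 1) →
  (∀ η > (0 : ℝ), ∃ z : ℂ, 0 < Function.minimalPeriod (fun w : ℂ => w ^ n + c) z ∧
    ‖deriv ((fun w : ℂ => w ^ n + c)^[Function.minimalPeriod (fun w : ℂ => w ^ n + c) z]) z - ζ‖ < η) →
  ¬ HasInvariantLineField (fun z : ℂ => z ^ n + c)

end NLF
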