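import Pool.Agent.helper74.NL.QUANT
import Pool.Agent.helper74.NL.MD0
import Pool.Agent.helper11.NL.IP
import Pool.Agent.helper16.NL.NB
import Pool.Agent.helper21.NL.IND
import Pool.Agent.helper22.NL.SD1
import Pool.Agent.helper25.NL.INEQ
import Pool.Agent.helper31.NL.CT0
import Pool.Agent.helper44.NL.CYC
import Pool.Agent.helper44.NL.FIN
import Pool.Agent.helper47.NL.PAIR
import Pool.Agent.helper6.NL.RAD
import Pool.Agent.helper60.NL.NZ
import Pool.Agent.helper60.NL.REL
import Pool.Agent.helper61.NL.SD2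
import Pool.Agent.helper66.NL.CB
import Pool.Agent.helper70.NL.CTH
import Pool.Agent.helper70.NL.LIMK
import Pool.Agent.helper70.NL.LFI
import Pool.Agent.helper79.NL.MAXP
import Pool.Agent.helper89.NL.RAT
import Pool.Agent.helper90.NL.CTB
import Pool.Agent.helper92.NL.JUL
import Pool.Agent.helper98.NL.T1
import Pool.Agent.helper92.MP.MI
import Pool.Agent.helper43.MP.MCV
import Pool.Agent.helper27.MP.TB
import Pool.Agent.helper24.MP.TG
import Pool.Agent.helper91.MP.TBD

/-!
# Project nl:, assembly: everything except the universal strip `THA_stmt`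
-/

set_option autoImplicit false

open Complex Metric Set Filter Topology MeasureTheory MPS Pool.Agent.helper98.ILF

noncomputable section

namespace NLF

theorem Z_CTB : CTB_stmt := CTB MI
theorem Z_IP : IP_stmt := IP (CB MCV) (NB MCV)
theorem Z_REL : REL_stmt := REL Z_IP Z_CTB T1
theorem Z_NZ : NZ_stmt := NZ (JUL Z_REL Z_CTB) Z_CTB CTH MAXP (CT0 Z_CTB)
theorem Z_PAIR : PAIR_stmt := PAIR MI TB Z_IP

theorem Z_INEQ : INEQ_stmt := INEQ RAD (SD1 MI) (SD2 MI) Z_PAIR (LIMK Z_CTB)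
theorem Z_IND : IND_stmt := IND TG Z_INEQ Z_NZ (MD0 MI MCV TB TBD_main) RAT NOP
theorem Z_QUANT (h : NLF.THA_stmt) : QUANT_stmt := QUANT LFI Z_CTB Z_NZ Z_IND CYC h TG Z_INEQ
theorem Z_QUAL (h : NLF.THA_stmt) : QUAL_stmt := QUAL LFI Z_IND CYC (Z_QUANT h)
theorem Z_FIN (h : NLF.THA_stmt) : FIN_stmt := FIN (Z_QUAL h)

end NLF
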